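import Pool.Agent.V5helper43.NC.Stm

/-!
# Project NC, job CNTB: counting the supplementary elements
-/

set_option autoImplicit false

open Finset

namespace Pool.Agent.V5helper4.NC

open Pool.Agent.V5helper43.NC
open Pool.Agent.Y940.HB (d co co_pos le_d lt_of_d_lt)

variable {π : Par} (S : Sys π)

/-- candidates for the lower part -/
def DD (c : Bool) (i : ℕ) : Finset ℕ :=
  (S.P c i ×ˢ range (2 ^ (π.s i + 4))).image fun x => x.1 + 4 ^ π.m i * (co c * d x.2)

lemma card_DD (c : Bool) (i : ℕ) : (DD S c i).card ≤ 2 ^ (π.m (i + 1) + 4) := by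
  refine card_image_le.trans ?_
  rw [card_product, S.P_card, card_range, ← pow_add, π.m_succ, add_assoc]

lemma mem_DD {c : Bool} {i a : ℕ} (ha : a ∈ S.U c i) (h : a < 256 * 4 ^ π.m (i + 1)) :
    a ∈ DD S c i := by
  obtain ⟨p, hp, u, rfl⟩ := ha
  refine mem_image.2 ⟨(p, u), mem_product.2 ⟨hp, mem_range.2 ?_⟩, rfl⟩
  apply lt_of_d_lt
  have h1 : 4 ^ π.m i * d u ≤ p + 4 ^ π.m i * (co c * d u) := by
    have h2 : d u ≤ co c * d u := Nat.le_mul_of_pos_left _ (co_pos c)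
    exact (Nat.mul_le_mul_left _ h2).trans (Nat.le_add_left _ _)
  have h2 : 256 * 4 ^ π.m (i + 1) = 4 ^ π.m i * 4 ^ (π.s i + 4) := by
    rw [π.m_succ, pow_add, pow_add]
    ring
  exact lt_of_mul_lt_mul_left (h1.trans_lt (h.trans_eq h2)) (Nat.zero_le _)

/-- candidates for the supplementary elements with `z < Zb` -/
def FF (i Zb : ℕ) : Finset ℕ :=
  (univ : Finset (Bool × Bool × Fin 2)).biUnion fun t =>
    (range Zb ×ˢ DD S t.2.1 i).image fun x =>
      co t.1 * (π.X (i + 1) * d x.1) + x.2 - (t.2.2 : ℕ) * (193 * 4 ^ π.m (i + 1))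

lemma card_FF (i Zb : ℕ) : (FF S i Zb).card ≤ 128 * (Zb * 2 ^ π.m (i + 1)) := by
  refine card_biUnion_le.trans ?_
  have h1 : ∀ t ∈ (univ : Finset (Bool × Bool × Fin 2)),
      ((range Zb ×ˢ DD S t.2.1 i).image fun x : ℕ × ℕ =>
        co t.1 * (π.X (i + 1) * d x.1) + x.2 - (t.2.2 : ℕ) * (193 * 4 ^ π.m (i + 1))).card ≤
      Zb * 2 ^ (π.m (i + 1) + 4) := by
    intro t _
    refine card_image_le.trans ?_
    rw [card_product, card_range]
    exact Nat.mul_le_mul_left _ (card_DD S _ _)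
  refine (sum_le_card_nsmul _ _ _ h1).trans (le_of_eq ?_)
  have h2 : (univ : Finset (Bool × Bool × Fin 2)).card = 8 := by decide
  rw [h2, smul_eq_mul, pow_add]
  ring

lemma mem_FF {i Zb e : ℕ} {c c' : Bool} {z ε a : ℕ} (hz : z < Zb) (hε : ε ≤ 1) (ha : a ∈ S.U c' i)
    (ha' : a < 256 * 4 ^ π.m (i + 1))
    (he : e + ε * (193 * 4 ^ π.m (i + 1)) = co c * (π.X (i + 1) * d z) + a) : e ∈ FF S i Zb := by
  refine mem_biUnion.2 ⟨(c, c', ⟨ε, by omega⟩), mem_univ _, mem_image.2 ⟨(z, a),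
    mem_product.2 ⟨mem_range.2 hz, mem_DD S ha ha'⟩, ?_⟩⟩
  simp only
  omega

/-- the thresholds -/
def aa (π : Par) (i : ℕ) : ℕ := π.m i + π.l i

lemma aa_succ (i : ℕ) : aa π i + 10 ≤ aa π (i + 1) := by
  have h1 := π.s_ge i
  have h2 := π.mono (Nat.le_succ i)
  have h3 := π.m_succ i
  unfold aa
  rw [Nat.succ_eq_add_one] at h2
  omega

lemma aa_mono {i j : ℕ} (h : i ≤ j) : aa π i ≤ aa π j :=
  monotone_nat_of_le_succ (fun i => (Nat.le_add_right _ 10).trans (aa_succ i)) h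

/-- the bound for `z` -/
lemma z_bound {i k e : ℕ} {c : Bool} {z ε a : ℕ} (hz : 1 ≤ z) (hε : ε ≤ 1)
    (he : e + ε * (193 * 4 ^ π.m (i + 1)) = co c * (π.X (i + 1) * d z) + a) (hk : e < 4 ^ k) :
    aa π (i + 1) ≤ k ∧ z < 2 ^ (k + 1 - aa π (i + 1)) := by
  have hX : 1024 * 4 ^ π.m (i + 1) ≤ π.X (i + 1) := by
    have h1 : 4 ^ 5 ≤ 4 ^ π.l (i + 1) := Nat.pow_le_pow_right (by norm_num) (π.five _)
    rw [Par.X, pow_add, mul_comm]
    exact Nat.mul_le_mul_left _ (by simpa using h1)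
  have hd : 1 ≤ d z := hz.trans (le_d z)
  have h1 : π.X (i + 1) * d z ≤ co c * (π.X (i + 1) * d z) := Nat.le_mul_of_pos_left _ (co_pos c)
  have h2 : π.X (i + 1) ≤ π.X (i + 1) * d z := Nat.le_mul_of_pos_right _ hd
  have h3 : ε * (193 * 4 ^ π.m (i + 1)) ≤ 193 * 4 ^ π.m (i + 1) := by
    calc ε * (193 * 4 ^ π.m (i + 1)) ≤ 1 * (193 * 4 ^ π.m (i + 1)) := Nat.mul_le_mul_right _ hε
      _ = _ := one_mul _
  have h4 : π.X (i + 1) * d z < 4 ^ (k + 1) := by
    rw [pow_succ]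
    omega
  have h5 : aa π (i + 1) ≤ k := by
    have h6 : 4 ^ aa π (i + 1) < 4 ^ (k + 1) := h2.trans_lt h4
    have := (Nat.pow_lt_pow_iff_right (by norm_num)).1 h6
    omega
  refine ⟨h5, lt_of_d_lt _ _ ?_⟩
  have h7 : 4 ^ (k + 1) = π.X (i + 1) * 4 ^ (k + 1 - aa π (i + 1)) := by
    rw [Par.X, ← pow_add]
    congr 1
    unfold aa at h5 ⊢
    omega
  rw [h7] at h4
  exact lt_of_mul_lt_mul_left h4 (Nat.zero_le _)

/-- geometric sum -/
lemma sum_aa (j : ℕ) : ∑ i ∈ range j, 2 ^ aa π (i + 2) ≤ 2 * 2 ^ aa π (j + 1) := by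
  induction j with
  | zero => simp
  | succ j ih =>
    rw [sum_range_succ]
    have h1 : 2 * 2 ^ aa π (j + 1) ≤ 2 ^ aa π (j + 2) := by
      have h2 := aa_succ (π := π) (j + 1)
      rw [show j + 1 + 1 = j + 2 from rfl] at h2
      calc 2 * 2 ^ aa π (j + 1) = 2 ^ (aa π (j + 1) + 1) := by rw [pow_succ, mul_comm]
        _ ≤ _ := Nat.pow_le_pow_right (by norm_num) (by omega)
    have e : j + 1 + 1 = j + 2 := rfl
    rw [e]
    omega

theorem t_CNTB : S_CNTB := by
  intro π S j k hk1 hk2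
  -- the candidates
  let Zb : ℕ → ℕ := fun i =>
    if i < j then 2 ^ (π.s (i + 1) + π.l (i + 2) - π.l (i + 1)) else
      if aa π (i + 1) ≤ k then 2 ^ (k + 1 - aa π (i + 1)) else 0
  have hsub : {e | e ∈ {e | ∃ i, e ∈ S.B i} ∧ e < 4 ^ k} ⊆
      ((((range (j + 3)).biUnion fun i => FF S i (Zb i)) : Finset ℕ) : Set ℕ) := by
    rintro e ⟨⟨i, c, c', z, ε, a, hz1, hz2, hε, ha, ha', he⟩, hek⟩
    obtain ⟨h1, h2⟩ := z_bound hz1 hε he hek
    rw [mem_coe, mem_biUnion]
    have hi : i < j + 3 := by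
      by_contra hcon
      have h3 := aa_mono (π := π) (show j + 3 + 1 ≤ i + 1 by omega)
      have h4 := aa_succ (π := π) (j + 3)
      have h5 : k ≤ aa π (j + 3) := hk2
      omega
    refine ⟨i, mem_range.2 hi, mem_FF S (c := c) (z := z) (ε := ε) (a := a) ?_ hε ha ha' he⟩
    simp only [Zb, if_pos h1]
    split_ifs
    · exact hz2
    · exact h2
  have hcard : cnt {e | ∃ i, e ∈ S.B i} (4 ^ k) ≤ ∑ i ∈ range (j + 3), (FF S i (Zb i)).card := by
    have h1 := Set.ncard_le_ncard hsub (Finset.finite_toSet _)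
    rw [Set.ncard_coe_finset] at h1
    exact h1.trans card_biUnion_le
  -- the small indices
  have hsmall : ∀ i ∈ range j, (FF S i (Zb i)).card ≤ 128 * 2 ^ aa π (i + 2) := by
    intro i hi
    refine (card_FF S i _).trans (Nat.mul_le_mul_left _ ?_)
    simp only [Zb, if_pos (mem_range.1 hi)]
    rw [← pow_add]
    refine Nat.pow_le_pow_right (by norm_num) ?_
    have h1 := π.m_succ (i + 1)
    have e : i + 1 + 1 = i + 2 := rfl
    rw [e] at h1
    unfold aa
    omega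
  have hlarge : ∀ i, j ≤ i → (FF S i (Zb i)).card * 2 ^ π.l (j + 1) ≤ 256 * 2 ^ k := by
    intro i hi
    have h1 := card_FF S i (Zb i)
    by_cases hik : aa π (i + 1) ≤ k
    · have h0 : Zb i = 2 ^ (k + 1 - aa π (i + 1)) := by
        simp only [Zb, if_neg (not_lt.2 hi), if_pos hik]
      rw [h0, ← pow_add] at h1
      rw [h0]
      have h2 : π.l (j + 1) ≤ π.l (i + 1) := π.mono (by omega)
      calc (FF S i (2 ^ (k + 1 - aa π (i + 1)))).card * 2 ^ π.l (j + 1)
          ≤ (128 * 2 ^ (k + 1 - aa π (i + 1) + π.m (i + 1))) * 2 ^ π.l (i + 1) :=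
            Nat.mul_le_mul h1 (Nat.pow_le_pow_right (by norm_num) h2)
        _ = 128 * 2 ^ (k + 1) := by
            rw [mul_assoc, ← pow_add]
            congr 2
            unfold aa at hik ⊢
            omega
        _ = 256 * 2 ^ k := by rw [pow_succ]; ring
    · have h0 : Zb i = 0 := by
        simp only [Zb, if_neg (not_lt.2 hi), if_neg hik]
      rw [h0, zero_mul, mul_zero, Nat.le_zero] at h1
      rw [h0, h1, zero_mul]
      exact Nat.zero_le _
  have hsum : (∑ i ∈ range j, (FF S i (Zb i)).card) * 2 ^ π.l (j + 1) ≤ 256 * 2 ^ k := by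
    have h1 : ∑ i ∈ range j, (FF S i (Zb i)).card ≤ 128 * (2 * 2 ^ aa π (j + 1)) := by
      refine (sum_le_sum hsmall).trans ?_
      rw [← mul_sum]
      exact Nat.mul_le_mul_left _ (sum_aa j)
    calc (∑ i ∈ range j, (FF S i (Zb i)).card) * 2 ^ π.l (j + 1)
        ≤ 128 * (2 * 2 ^ aa π (j + 1)) * 2 ^ π.l (j + 1) := Nat.mul_le_mul_right _ h1
      _ = 256 * 2 ^ (aa π (j + 1) + π.l (j + 1)) := by rw [pow_add]; ring
      _ ≤ 256 * 2 ^ k := by
          refine Nat.mul_le_mul_left _ (Nat.pow_le_pow_right (by norm_num) ?_)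
          have h2 := π.m_succ (j + 1)
          rw [show j + 1 + 1 = j + 2 from rfl] at h2
          have h3 : π.s (j + 1) = 2 * π.l (j + 1) := rfl
          unfold aa
          omega
  have h3 : ∑ i ∈ range (j + 3), (FF S i (Zb i)).card =
      ∑ i ∈ range j, (FF S i (Zb i)).card + (FF S j (Zb j)).card + (FF S (j + 1) (Zb (j + 1))).card +
        (FF S (j + 2) (Zb (j + 2))).card := by
    rw [sum_range_succ, sum_range_succ, sum_range_succ]
  rw [h3] at hcard
  refine (Nat.mul_le_mul_right _ hcard).trans ?_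
  have l0 := hlarge j le_rfl
  have l1 := hlarge (j + 1) (by omega)
  have l2 := hlarge (j + 2) (by omega)
  rw [add_mul, add_mul, add_mul]
  omega

end Pool.Agent.V5helper4.NC
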